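import Pool.Agent.W2helper9.OP.Stm

/-!
# Project OP, piece COMP: congruence over `K` and over the algebraic closure
-/

set_option autoImplicit false

namespace Pool.Agent.W2helper17.OP

open IsDedekindDomain NumberField Pool.Agent.W2helper9.OP

section

variable {K : Type} [Field K] [NumberField K] {v : HeightOneSpectrum (𝓞 K)}
  {A : ValuationSubring (AlgebraicClosure K)}

theorem val_le_iff (h : Over v A) (z : K) :
    A.valuation (algebraMap K (AlgebraicClosure K) z) ≤ 1 ↔ v.valuation K z ≤ 1 := by
  rw [ValuationSubring.valuation_le_one_iff]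
  exact h z

theorem val_lt_iff (h : Over v A) (z : K) :
    A.valuation (algebraMap K (AlgebraicClosure K) z) < 1 ↔ v.valuation K z < 1 := by
  by_cases hz : z = 0
  · subst hz
    simp
  · have hz' : algebraMap K (AlgebraicClosure K) z ≠ 0 := by
      intro h0
      exact hz ((algebraMap K (AlgebraicClosure K)).injective (by rw [h0, map_zero]))
    have h1 := val_le_iff h z⁻¹
    rw [map_inv₀, map_inv₀, map_inv₀] at h1
    have p1 : 0 < A.valuation (algebraMap K (AlgebraicClosure K) z) :=
      zero_lt_iff.2 ((Valuation.ne_zero_iff _).2 hz')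
    have p2 : 0 < v.valuation K z := zero_lt_iff.2 ((Valuation.ne_zero_iff _).2 hz)
    rw [inv_le_one₀ p1, inv_le_one₀ p2] at h1
    rw [← not_le, ← not_le, h1]

theorem val_eq_iff (h : Over v A) (z : K) :
    A.valuation (algebraMap K (AlgebraicClosure K) z) = 1 ↔ v.valuation K z = 1 := by
  have h1 := val_le_iff h z
  have h2 := val_lt_iff h z
  constructor
  · intro h3
    refine le_antisymm (h1.1 h3.le) ?_
    rw [← not_lt, ← h2, h3]
    exact lt_irrefl _
  · intro h3
    refine le_antisymm (h1.2 h3.le) ?_
    rw [← not_lt, h2, h3]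
    exact lt_irrefl _

end

/-- **COMP** -/
theorem p_comp : P_COMP := by
  intro K _ _ N v A h x y
  constructor
  · rintro ⟨a, b, h1, ⟨i0, h2⟩, h3⟩
    have hX : ∀ i, emb x i = algebraMap K (AlgebraicClosure K) (x i) := fun _ => rfl
    have hY : ∀ i, emb y i = algebraMap K (AlgebraicClosure K) (y i) := fun _ => rfl
    have hax : a * emb x i0 ≠ 0 := by
      intro h0
      rw [h0, map_zero] at h2
      exact zero_ne_one h2
    have hby1 : A.valuation (b * emb y i0) = 1 := by
      have e : b * emb y i0 = a * emb x i0 - (a * emb x i0 - b * emb y i0) := by ring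
      rw [e, Valuation.map_sub_eq_of_lt_left _ (by rw [h2]; exact h3 i0), h2]
    have hby : b * emb y i0 ≠ 0 := by
      intro h0
      rw [h0, map_zero] at hby1
      exact zero_ne_one hby1
    have ha0 : a ≠ 0 := left_ne_zero_of_mul hax
    have hb0 : b ≠ 0 := left_ne_zero_of_mul hby
    have hx0 : emb x i0 ≠ 0 := right_ne_zero_of_mul hax
    have hy0 : emb y i0 ≠ 0 := right_ne_zero_of_mul hby
    have ex : ∀ i, algebraMap K (AlgebraicClosure K) ((x i0)⁻¹ * x i) =
        (a * emb x i) / (a * emb x i0) := by
      intro i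
      rw [map_mul, map_inv₀, ← hX, ← hX, mul_div_mul_left _ _ ha0, div_eq_inv_mul]
    have ey : ∀ i, algebraMap K (AlgebraicClosure K) ((y i0)⁻¹ * y i) =
        (b * emb y i) / (b * emb y i0) := by
      intro i
      rw [map_mul, map_inv₀, ← hY, ← hY, mul_div_mul_left _ _ hb0, div_eq_inv_mul]
    refine ⟨(x i0)⁻¹, (y i0)⁻¹, fun i => ?_, ⟨i0, ?_⟩, fun i => ?_⟩
    · rw [← val_le_iff h, ex, map_div₀, h2, div_one]
      exact h1 i
    · rw [← val_eq_iff h, ex, map_div₀, h2, div_one]
    · rw [← val_lt_iff h, map_sub, ex, ey]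
      have e : (a * emb x i) / (a * emb x i0) - (b * emb y i) / (b * emb y i0) =
          ((a * emb x i0) * (a * emb x i - b * emb y i) -
            (a * emb x i) * (a * emb x i0 - b * emb y i0)) /
              ((a * emb x i0) * (b * emb y i0)) := by
        field_simp
        ring
      rw [e, map_div₀, map_mul, h2, hby1, mul_one, div_one]
      refine lt_of_le_of_lt (Valuation.map_sub _ _ _) (max_lt ?_ ?_)
      · rw [map_mul, h2, one_mul]
        exact h3 i
      · rw [map_mul]
        exact lt_of_le_of_lt (mul_le_of_le_one_left' (h1 i)) (h3 i0)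
  · rintro ⟨a, b, h1, ⟨i0, h2⟩, h3⟩
    refine ⟨algebraMap K _ a, algebraMap K _ b, fun i => ?_, ⟨i0, ?_⟩, fun i => ?_⟩
    · unfold emb
      rw [← map_mul, val_le_iff h]
      exact h1 i
    · unfold emb
      rw [← map_mul, val_eq_iff h]
      exact h2
    · unfold emb
      rw [← map_mul, ← map_mul, ← map_sub, val_lt_iff h]
      exact h3 i

end Pool.Agent.W2helper17.OP
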